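import Pool.Agent.WIR.StmtsC

namespace Pool.Agent.Helper92_WIR

open Pool.Agent.WIR
open scoped BigOperators

theorem two_inv (N : ℕ) : (2 : ZMod (3 ^ N)) * (2 : ZMod (3 ^ N))⁻¹ = 1 := by
  apply ZMod.mul_inv_of_unit
  have h1 : IsUnit ((2 : ℕ) : ZMod (3 ^ N)) := by
    rw [ZMod.isUnit_iff_coprime]
    exact Nat.Coprime.pow_right N (by norm_num)
  exact_mod_cast h1

open Classical in
theorem awp (hawr : AwrStmt) (hwgn : WgnStmt) : AwpStmt := by
  intro N S ξ n i l W hi hi1 hW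
  obtain ⟨χ, hχ⟩ : ∃ χ : ZMod (3 ^ N) → ℂ, ∀ a, χ a = ZMod.stdAddChar a := ⟨_, fun _ => rfl⟩
  have hχn : ∀ a, ‖χ a‖ = 1 := fun a => by
    rw [hχ]
    exact AddChar.norm_apply _ _
  have h1 : Aw N S ξ n i l = ∑ x ∈ Finset.Icc (l + 1) (l + n),
      ∑ z ∈ Finset.Icc (x + 1) (l + n), (1 / 2 : ℂ) ^ (z - l)
        * (χ (-(ξ * 3 ^ (i + 1) * (2 : ZMod (3 ^ N))⁻¹ ^ z)) * Aw N S ξ (l + n - z) (i + 2) z)
        * χ (-(ξ * 3 ^ i * (2 : ZMod (3 ^ N))⁻¹ ^ x)) := by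
    rw [hawr N S ξ n i l, if_neg hi, mul_zero, add_zero]
    refine Finset.sum_congr rfl fun x hx => ?_
    obtain ⟨hx1, hx2⟩ := Finset.mem_Icc.mp hx
    rw [hawr N S ξ (l + n - x) (i + 1) x, if_neg hi1, mul_zero, add_zero]
    have hxn : x + (l + n - x) = l + n := by omega
    rw [hxn, Finset.mul_sum, Finset.mul_sum]
    refine Finset.sum_congr rfl fun z hz => ?_
    obtain ⟨hz1, hz2⟩ := Finset.mem_Icc.mp hz
    have hp : (1 / 2 : ℂ) ^ (z - l) = (1 / 2 : ℂ) ^ (x - l) * (1 / 2 : ℂ) ^ (z - x) := by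
      rw [← pow_add]
      congr 1
      omega
    rw [hp, hχ, hχ]
    ring
  rw [h1, Finset.sum_comm' (s' := fun z => Finset.Icc (l + 1) (z - 1))
    (t' := Finset.Icc (l + 2) (l + n)) (by
      intro x z
      simp only [Finset.mem_Icc]
      omega)]
  refine (norm_sum_le _ _).trans ?_
  unfold Kh
  refine Finset.sum_le_sum fun z hz => ?_
  obtain ⟨hz1, hz2⟩ := Finset.mem_Icc.mp hz
  rw [← Finset.mul_sum, norm_mul, norm_mul, norm_mul, hχn, one_mul, norm_pow]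
  have hhalf : ‖(1 / 2 : ℂ)‖ = 1 / 2 := by norm_num
  rw [hhalf]
  have key : ‖∑ x ∈ Finset.Icc (l + 1) (z - 1), χ (-(ξ * 3 ^ i * (2 : ZMod (3 ^ N))⁻¹ ^ x))‖
      ≤ ((z - l - 1 : ℕ) : ℝ) * (if z = l + 3 ∧ W then 1 - 2 * eps ^ 2 else 1) := by
    split_ifs with hc
    · obtain ⟨hc1, hc2⟩ := hc
      have e1 : Finset.Icc (l + 1) (z - 1) = {l + 1, l + 2} := by
        ext y
        simp only [Finset.mem_Icc, Finset.mem_insert, Finset.mem_singleton]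
        omega
      have e2 : z - l - 1 = 2 := by omega
      rw [e1, e2, Finset.sum_pair (by omega), hχ, hχ]
      have h2 := hwgn N (-(ξ * 3 ^ i * (2 : ZMod (3 ^ N))⁻¹ ^ (l + 1)))
        (-(ξ * 3 ^ i * (2 : ZMod (3 ^ N))⁻¹ ^ (l + 2))) (by
          have e3 : -(ξ * 3 ^ i * (2 : ZMod (3 ^ N))⁻¹ ^ (l + 2))
              - -(ξ * 3 ^ i * (2 : ZMod (3 ^ N))⁻¹ ^ (l + 1))
              = ξ * 3 ^ i * (2 : ZMod (3 ^ N))⁻¹ ^ (l + 2) := by
            have e4 : (2 : ZMod (3 ^ N))⁻¹ ^ (l + 1)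
                = 2 * (2 : ZMod (3 ^ N))⁻¹ ^ (l + 2) := by
              rw [pow_succ _ (l + 1)]
              linear_combination (-(2 : ZMod (3 ^ N))⁻¹ ^ (l + 1)) * two_inv N
            rw [e4]
            ring
          rw [e3]
          exact hW hc2)
      exact_mod_cast h2
    · rw [mul_one]
      refine (norm_sum_le _ _).trans ?_
      have e1 : ∑ x ∈ Finset.Icc (l + 1) (z - 1),
          ‖χ (-(ξ * 3 ^ i * (2 : ZMod (3 ^ N))⁻¹ ^ x))‖ = ((z - l - 1 : ℕ) : ℝ) := by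
        rw [Finset.sum_congr rfl (fun x _ => hχn _), Finset.sum_const, Nat.card_Icc,
          nsmul_eq_mul, mul_one]
        congr 1
        omega
      exact e1.le
  have h3 : (0 : ℝ) ≤ (1 / 2) ^ (z - l) * ‖Aw N S ξ (l + n - z) (i + 2) z‖ := by positivity
  have h4 := mul_le_mul_of_nonneg_left key h3
  refine h4.trans (le_of_eq ?_)
  ring

end Pool.Agent.Helper92_WIR
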