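import Pool.Agent.WIR.StmtsB

namespace Pool.Agent.Helper92_WIR

open Pool.Agent.WIR

theorem lam_nonneg : 0 ≤ lam := Real.logb_nonneg (by norm_num) (by norm_num)

theorem corner {h : ℕ} {b : ℕ → ℕ → Prop} {Q : Set (ℕ × ℕ)} {t : ℕ × ℕ → ℝ}
    (hT : TSys h b Q t) {q q' : ℕ × ℕ} {j l : ℕ} (hq : q ∈ Q) (hq' : q' ∈ Q)
    (h1 : Tri q (t q) j l) (h2 : Tri q' (t q') j l) : Tri q (t q) q'.1 q'.2 := by
  obtain ⟨a1, a2, a3⟩ := h2
  have up : ∀ i : ℕ, l + i ≤ q'.2 → Tri q (t q) j (l + i) := by
    intro i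
    induction i with
    | zero => intro _; exact h1
    | succ i ih =>
      intro hi
      have h3 : Tri q' (t q') j (l + (i + 1)) := by
        refine ⟨a1, hi, ?_⟩
        push_cast
        have : (0 : ℝ) ≤ i := Nat.cast_nonneg i
        linarith
      have h4 := (hT.sub q' hq' _ _ h3).1
      exact hT.sep q hq j (l + i) j (l + (i + 1)) (ih (by omega)) h4 (by omega) (by omega)
        (by omega) (by omega)
  have top : Tri q (t q) j q'.2 := by
    have h3 := up (q'.2 - l) (by omega)
    have h4 : l + (q'.2 - l) = q'.2 := by omega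
    rwa [h4] at h3
  have left : ∀ k : ℕ, q'.1 + k ≤ j → Tri q (t q) (j - k) q'.2 := by
    intro k
    induction k with
    | zero => intro _; exact top
    | succ k ih =>
      intro hk
      have hle : k + 1 ≤ j := by omega
      have h3 : Tri q' (t q') (j - (k + 1)) q'.2 := by
        refine ⟨by omega, le_rfl, ?_⟩
        rw [Nat.cast_sub hle]
        have h5 : lam * (((j : ℝ) - ((k + 1 : ℕ) : ℝ)) - q'.1) ≤ lam * ((j : ℝ) - q'.1) := by
          refine mul_le_mul_of_nonneg_left ?_ lam_nonneg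
          have : (0 : ℝ) ≤ ((k + 1 : ℕ) : ℝ) := Nat.cast_nonneg _
          linarith
        have h6 : (l : ℝ) ≤ q'.2 := by exact_mod_cast a2
        linarith
      have h4 := (hT.sub q' hq' _ _ h3).1
      exact hT.sep q hq (j - k) q'.2 (j - (k + 1)) q'.2 (ih (by omega)) h4 (by omega) (by omega)
        (by omega) (by omega)
  have h3 := left (j - q'.1) (by omega)
  have h4 : j - (j - q'.1) = q'.1 := by omega
  rwa [h4] at h3

theorem dsj : DsjStmt := by
  intro h b Q t hT q q' j l hq hq' h1 h2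
  have h3 := corner hT hq hq' h1 h2
  have h4 := corner hT hq' hq h2 h1
  have e1 := h3.1
  have e2 := h3.2.1
  have e3 := h4.1
  have e4 := h4.2.1
  exact Prod.ext (le_antisymm e1 e3) (le_antisymm e4 e2)

end Pool.Agent.Helper92_WIR
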