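import Pool.Agent.WIR.StmtsE

namespace Pool.Agent.Helper92_WIR

open Pool.Agent.WIR Filter
open scoped BigOperators Topology

theorem sum_val (n : ℕ) [NeZero n] (F : ℕ → ℝ) :
    ∑ x : ZMod n, F x.val = ∑ i ∈ Finset.range n, F i := by
  refine Finset.sum_nbij' (fun x => x.val) (fun i => (i : ZMod n)) ?_ ?_ ?_ ?_ ?_
  · intro x _
    exact Finset.mem_range.mpr (ZMod.val_lt x)
  · intro i _
    exact Finset.mem_univ _
  · intro x _
    exact ZMod.natCast_zmod_val x
  · intro i hi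
    exact ZMod.val_natCast_of_lt (Finset.mem_range.mp hi)
  · intro x _
    rfl

theorem sum_three (m : ℕ) (G : ℕ → ℝ) (hG : ∀ i, G (m + i) = G i) :
    ∑ i ∈ Finset.range (3 * m), G i = 3 * ∑ i ∈ Finset.range m, G i := by
  have e : 3 * m = m + (m + m) := by ring
  rw [e, Finset.sum_range_add, Finset.sum_range_add]
  simp only [hG]
  ring

theorem pj_comp {r N : ℕ} (h : r ≤ N) (x : ZMod (3 ^ (N + 1))) :
    pj r N (pj N (N + 1) x) = pj r (N + 1) x := by
  unfold pj
  rw [ZMod.val_natCast]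
  rw [ZMod.natCast_eq_natCast_iff]
  exact (Nat.mod_modEq x.val (3 ^ N)).of_dvd (pow_dvd_pow 3 h)

theorem pj_self (r : ℕ) (x : ZMod (3 ^ r)) : pj r r x = x := by
  unfold pj
  exact ZMod.natCast_zmod_val x

theorem sum_pj (N : ℕ) (f : ZMod (3 ^ N) → ℝ) :
    ∑ x : ZMod (3 ^ (N + 1)), f (pj N (N + 1) x) = 3 * ∑ y : ZMod (3 ^ N), f y := by
  have h1 : ∑ x : ZMod (3 ^ (N + 1)), f (pj N (N + 1) x)
      = ∑ i ∈ Finset.range (3 ^ (N + 1)), f (i : ZMod (3 ^ N)) :=
    sum_val (3 ^ (N + 1)) (fun i => f (i : ZMod (3 ^ N)))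
  have h2 : ∑ y : ZMod (3 ^ N), f y = ∑ i ∈ Finset.range (3 ^ N), f (i : ZMod (3 ^ N)) := by
    rw [← sum_val (3 ^ N) (fun i => f (i : ZMod (3 ^ N)))]
    refine Finset.sum_congr rfl fun y _ => ?_
    rw [ZMod.natCast_zmod_val]
  rw [h1, h2, pow_succ', sum_three (3 ^ N)]
  intro i
  rw [Nat.cast_add, ZMod.natCast_self, zero_add]

theorem wtl (hwcf : WcfStmt) : WtlStmt := by
  obtain ⟨C, hC, hN⟩ := hwcf 2
  obtain ⟨a, ha⟩ : ∃ a : ℕ → ℝ, ∀ N, a N = C / ((N : ℝ) + 1) ^ 2 := ⟨_, fun _ => rfl⟩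
  have hpos : ∀ N, 0 ≤ a N := by
    intro N
    rw [ha]
    positivity
  have hsum : Summable a := by
    have h1 : Summable (fun N : ℕ => C * (1 / ((N + 1 : ℕ) : ℝ) ^ 2)) := by
      refine Summable.mul_left C ?_
      exact (summable_nat_add_iff 1).mpr (Real.summable_one_div_nat_pow.mpr (by norm_num))
    refine h1.congr fun N => ?_
    rw [ha]
    push_cast
    ring
  refine ⟨fun r => ∑' k, a (k + r), tendsto_sum_nat_add a, ?_⟩
  have key : ∀ r m : ℕ, ∑ x : ZMod (3 ^ (r + m)), |W (r + m) x - W r (pj r (r + m) x)|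
      ≤ (∑ k ∈ Finset.range m, a (k + r)) * 3 ^ (r + m) := by
    intro r m
    induction m with
    | zero =>
      have h1 : ∑ x : ZMod (3 ^ (r + 0)), |W (r + 0) x - W r (pj r (r + 0) x)| = 0 := by
        refine Finset.sum_eq_zero fun x _ => ?_
        have h2 : pj r (r + 0) x = x := pj_self r x
        rw [h2]
        simp
      rw [h1]
      simp
    | succ m ih =>
      have h1 : ∑ x : ZMod (3 ^ (r + m + 1)), |W (r + m + 1) x - W r (pj r (r + m + 1) x)|
          ≤ ∑ x : ZMod (3 ^ (r + m + 1)), |W (r + m + 1) x - W (r + m) (pj (r + m) (r + m + 1) x)|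
            + ∑ x : ZMod (3 ^ (r + m + 1)), |W (r + m) (pj (r + m) (r + m + 1) x)
              - W r (pj r (r + m) (pj (r + m) (r + m + 1) x))| := by
        rw [← Finset.sum_add_distrib]
        refine Finset.sum_le_sum fun x _ => ?_
        rw [pj_comp (Nat.le_add_right r m)]
        exact abs_sub_le _ _ _
      have h2 := sum_pj (r + m) (fun y => |W (r + m) y - W r (pj r (r + m) y)|)
      have h3 := hN (r + m)
      have h4 : C / (((r + m : ℕ) : ℝ) + 1) ^ 2 = a (m + r) := by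
        rw [ha, add_comm m r]
      rw [h4] at h3
      have h5 : ∑ x : ZMod (3 ^ (r + m + 1)), |W (r + m + 1) x - W r (pj r (r + m + 1) x)|
          ≤ a (m + r) * 3 ^ (r + m + 1)
            + 3 * ((∑ k ∈ Finset.range m, a (k + r)) * 3 ^ (r + m)) := by
        refine h1.trans (add_le_add h3 ?_)
        rw [h2]
        exact mul_le_mul_of_nonneg_left ih (by norm_num)
      refine h5.trans (le_of_eq ?_)
      rw [Finset.sum_range_succ]
      show _ = (∑ k ∈ Finset.range m, a (k + r) + a (m + r)) * 3 ^ (r + m + 1)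
      rw [pow_succ]
      ring
  intro r N hrN
  obtain ⟨m, rfl⟩ := Nat.exists_eq_add_of_le hrN
  refine (key r m).trans ?_
  refine mul_le_mul_of_nonneg_right ?_ (by positivity)
  exact ((summable_nat_add_iff r).mpr hsum).sum_le_tsum _ (fun k _ => hpos _)

end Pool.Agent.Helper92_WIR
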